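import Mathlib

/-!
# Quantifier number for separating arbitrary sets of binary strings

`q n` is the least `k` such that any two disjoint sets of `n`-bit strings are separated by a
sentence with at most `k` quantifiers. We prove that the factor `1 + ε` in the upper bound
`(1 + ε) n / log n + O(1)` cannot be removed: `q n - n / log n` tends to infinity, and in fact
`q n ≥ n / log n + (1 - ε) n log log n / (log n) ^ 2` for all large `n`.

A sentence with `k` quantifiers is equivalent to a prenex sentence with `k` quantifiers, and its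
matrix is determined by a set of atomic types of `k` variables. There are at most `(2 k) ^ k`
atomic types, so that at most `2 ^ k * 2 ^ ((2 k) ^ k)` sets of `n`-bit strings are defined by
sentences with `k` quantifiers. Hence `2 ^ n ≤ k + (2 k) ^ k` for `k = q n`.
-/

set_option autoImplicit false

open Filter Topology

namespace Pool.Agent.Results.MP_ce8f12_lc.FactorNeeded

/-- First-order formulas with equality in the vocabulary `{≤, P}`; the free variables of a formula
in `Fml m` are among `x_0, ..., x_{m-1}`, and a quantifier in front of a formula in `Fml (m + 1)`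
binds the variable `x_m`. -/
inductive Fml : ℕ → Type
  | eq {m : ℕ} (i j : Fin m) : Fml m
  | le {m : ℕ} (i j : Fin m) : Fml m
  | pred {m : ℕ} (i : Fin m) : Fml m
  | neg {m : ℕ} (φ : Fml m) : Fml m
  | and {m : ℕ} (φ ψ : Fml m) : Fml m
  | or {m : ℕ} (φ ψ : Fml m) : Fml m
  | imp {m : ℕ} (φ ψ : Fml m) : Fml m
  | ex {m : ℕ} (φ : Fml (m + 1)) : Fml m
  | all {m : ℕ} (φ : Fml (m + 1)) : Fml m

/-- Truth of a formula in the binary string `w` (positions `Fin n`, `P i` iff `w i` is `true`) under
the assignment `v`. -/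
def Fml.Holds {n : ℕ} (w : Fin n → Bool) : {m : ℕ} → Fml m → (Fin m → Fin n) → Prop
  | _, .eq i j, v => v i = v j
  | _, .le i j, v => v i ≤ v j
  | _, .pred i, v => w (v i) = true
  | _, .neg φ, v => ¬ φ.Holds w v
  | _, .and φ ψ, v => φ.Holds w v ∧ ψ.Holds w v
  | _, .or φ ψ, v => φ.Holds w v ∨ ψ.Holds w v
  | _, .imp φ ψ, v => φ.Holds w v → ψ.Holds w v
  | m, .ex φ, v => ∃ a : Fin n, φ.Holds w (Fin.snoc (α := fun _ => Fin n) v a)
  | m, .all φ, v => ∀ a : Fin n, φ.Holds w (Fin.snoc (α := fun _ => Fin n) v a)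

/-- The quantifier number: the number of occurrences of quantifiers. -/
def Fml.qn : {m : ℕ} → Fml m → ℕ
  | _, .eq _ _ => 0
  | _, .le _ _ => 0
  | _, .pred _ => 0
  | _, .neg φ => φ.qn
  | _, .and φ ψ => φ.qn + ψ.qn
  | _, .or φ ψ => φ.qn + ψ.qn
  | _, .imp φ ψ => φ.qn + ψ.qn
  | _, .ex φ => φ.qn + 1
  | _, .all φ => φ.qn + 1

/-- The sentence `φ` is true in the string `w`. -/
def True' {n : ℕ} (φ : Fml 0) (w : Fin n → Bool) : Prop := φ.Holds w Fin.elim0

/-- The sentence `φ` is true in all strings in `A` and false in all strings in `B`. -/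
def Separates {n : ℕ} (φ : Fml 0) (A B : Set (Fin n → Bool)) : Prop :=
  (∀ w ∈ A, True' φ w) ∧ ∀ w ∈ B, ¬ True' φ w

/-- Any two disjoint sets of `n`-bit strings are separated by a sentence with at most `k`
quantifiers. -/
def Enough (n k : ℕ) : Prop :=
  ∀ A B : Set (Fin n → Bool), Disjoint A B → ∃ φ : Fml 0, φ.qn ≤ k ∧ Separates φ A B

/-- The least `k` such that any two disjoint sets of `n`-bit strings are separated by a sentence
with at most `k` quantifiers. -/
noncomputable def q (n : ℕ) : ℕ := sInf {k | Enough n k}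

/-! ### The relations defined by prenex formulas -/

section Sem

variable {n : ℕ}

/-- Relations between strings and tuples. -/
abbrev Rl (n m : ℕ) : Type := (Fin n → Bool) → (Fin m → Fin n) → Prop

/-- The atomic type of a tuple. -/
def ty {m : ℕ} (w : Fin n → Bool) (v : Fin m → Fin n) : Fin m → Fin m × Bool := fun i =>
  (⟨(Finset.univ.filter fun l => v l < v i).card, by
    have h : (Finset.univ.filter fun l => v l < v i).card < (Finset.univ : Finset (Fin m)).card := by
      apply Finset.card_lt_card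
      rw [Finset.ssubset_univ_iff]
      intro h
      have := Finset.mem_univ i
      rw [← h, Finset.mem_filter] at this
      exact lt_irrefl _ this.2
    simpa using h⟩, w (v i))

theorem ty_le {m : ℕ} {w w' : Fin n → Bool} {v v' : Fin m → Fin n} (h : ty w v = ty w' v')
    (i j : Fin m) : v i ≤ v j ↔ v' i ≤ v' j := by
  have key : ∀ (u : Fin m → Fin n), u i ≤ u j ↔
      (Finset.univ.filter fun l => u l < u i).card ≤ (Finset.univ.filter fun l => u l < u j).card := by
    intro u
    constructor
    · intro hij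
      apply Finset.card_le_card
      intro l hl
      rw [Finset.mem_filter] at hl ⊢
      exact ⟨hl.1, lt_of_lt_of_le hl.2 hij⟩
    · intro hc
      by_contra hij
      push Not at hij
      have : (Finset.univ.filter fun l => u l < u j).card <
          (Finset.univ.filter fun l => u l < u i).card := by
        apply Finset.card_lt_card
        rw [Finset.ssubset_iff_of_subset]
        · exact ⟨j, by simpa using hij, by simp⟩
        · intro l hl
          rw [Finset.mem_filter] at hl ⊢
          exact ⟨hl.1, lt_trans hl.2 hij⟩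
      omega
  have hi := congrArg (fun t => ((t i).1 : ℕ)) h
  have hj := congrArg (fun t => ((t j).1 : ℕ)) h
  simp only [ty] at hi hj
  rw [key v, key v', hi, hj]

theorem ty_val {m : ℕ} {w w' : Fin n → Bool} {v v' : Fin m → Fin n} (h : ty w v = ty w' v')
    (i : Fin m) : w (v i) = w' (v' i) := by
  have := congrArg (fun t => (t i).2) h
  simpa [ty] using this

/-- The relations defined by prenex formulas with `k` quantifiers. -/
def Dfn (n : ℕ) : ℕ → (m : ℕ) → Set (Rl n m)
  | 0, m => {R | ∀ w v w' v', ty w v = ty w' v' → (R w v ↔ R w' v')}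
  | k + 1, m => {R | ∃ R' ∈ Dfn n k (m + 1),
      (R = fun w v => ∃ a, R' w (Fin.snoc (α := fun _ => Fin n) v a)) ∨
      (R = fun w v => ∀ a, R' w (Fin.snoc (α := fun _ => Fin n) v a))}

/-- The extension of a map by the last element. -/
def lift {m m' : ℕ} (f : Fin m → Fin m') : Fin (m + 1) → Fin (m' + 1) :=
  Fin.snoc (α := fun _ => Fin (m' + 1)) (fun i => (f i).castSucc) (Fin.last m')

theorem snoc_lift {m m' : ℕ} (f : Fin m → Fin m') (v : Fin m' → Fin n) (a : Fin n) :
    (Fin.snoc (α := fun _ => Fin n) v a) ∘ lift f = Fin.snoc (α := fun _ => Fin n) (v ∘ f) a := by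
  funext i
  refine Fin.lastCases ?_ (fun i => ?_) i
  · simp [lift]
  · simp [lift]

theorem dfn_comp {k m m' : ℕ} (f : Fin m → Fin m') {R : Rl n m} (hR : R ∈ Dfn n k m) :
    (fun w v => R w (v ∘ f)) ∈ Dfn n k m' := by
  induction k generalizing m m' with
  | zero =>
    intro w v w' v' h
    apply hR
    funext i
    have h1 : ∀ i j, v (f i) ≤ v (f j) ↔ v' (f i) ≤ v' (f j) := fun i j => ty_le h (f i) (f j)
    have h2 : ∀ i j, v (f i) < v (f j) ↔ v' (f i) < v' (f j) := fun i j => by
      rw [← not_le, ← not_le, h1]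
    have h3 := ty_val h (f i)
    simp only [ty, Function.comp, Prod.mk.injEq, Fin.mk.injEq]
    refine ⟨?_, h3⟩
    congr 1
    ext l
    simp [h2]
  | succ k ih =>
    obtain ⟨R', hR', h⟩ := hR
    refine ⟨fun w v => R' w (v ∘ lift f), ih (lift f) hR', ?_⟩
    rcases h with rfl | rfl
    · left
      funext w v
      simp only [snoc_lift]
    · right
      funext w v
      simp only [snoc_lift]

theorem dfn_not {k m : ℕ} {R : Rl n m} (hR : R ∈ Dfn n k m) :
    (fun w v => ¬ R w v) ∈ Dfn n k m := by
  induction k generalizing m with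
  | zero =>
    intro w v w' v' h
    exact not_congr (hR w v w' v' h)
  | succ k ih =>
    obtain ⟨R', hR', h⟩ := hR
    refine ⟨fun w v => ¬ R' w v, ih hR', ?_⟩
    rcases h with rfl | rfl
    · right
      funext w v
      simp
    · left
      funext w v
      simp

theorem snoc_castSucc {m : ℕ} (v : Fin m → Fin n) (a : Fin n) :
    (Fin.snoc (α := fun _ => Fin n) v a) ∘ Fin.castSucc = v := by
  funext i
  simp

theorem dfn_and (hn : 0 < n) {j k m : ℕ} {R S : Rl n m} (hR : R ∈ Dfn n j m) (hS : S ∈ Dfn n k m) :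
    (fun w v => R w v ∧ S w v) ∈ Dfn n (j + k) m := by
  have hne : Nonempty (Fin n) := ⟨⟨0, hn⟩⟩
  induction j generalizing m k with
  | zero =>
    induction k generalizing m with
    | zero =>
      intro w v w' v' h
      exact and_congr (hR w v w' v' h) (hS w v w' v' h)
    | succ k ih =>
      obtain ⟨S', hS', h⟩ := hS
      have hR' := dfn_comp (k := 0) Fin.castSucc hR
      have h1 := ih hR' hS'
      refine ⟨_, h1, ?_⟩
      rcases h with rfl | rfl
      · left
        funext w v
        simp only [snoc_castSucc, exists_and_left]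
      · right
        funext w v
        simp only [snoc_castSucc, forall_and, forall_const]
  | succ j ih =>
    obtain ⟨R', hR', h⟩ := hR
    have hS' := dfn_comp Fin.castSucc hS
    have h1 := ih hR' hS'
    rw [show j + 1 + k = j + k + 1 by ring]
    refine ⟨_, h1, ?_⟩
    rcases h with rfl | rfl
    · left
      funext w v
      simp only [snoc_castSucc, exists_and_right]
    · right
      funext w v
      simp only [snoc_castSucc, forall_and, forall_const]

theorem dfn_mono (hn : 0 < n) {j k m : ℕ} (hjk : j ≤ k) {R : Rl n m} (hR : R ∈ Dfn n j m) :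
    R ∈ Dfn n k m := by
  have hne : Nonempty (Fin n) := ⟨⟨0, hn⟩⟩
  induction k, hjk using Nat.le_induction with
  | base => exact hR
  | succ k _ ih =>
    refine ⟨_, dfn_comp Fin.castSucc ih, Or.inl ?_⟩
    funext w v
    simp only [snoc_castSucc, exists_const]

theorem holds_mem (hn : 0 < n) {m : ℕ} (φ : Fml m) :
    (fun (w : Fin n → Bool) v => φ.Holds w v) ∈ Dfn n φ.qn m := by
  induction φ with
  | eq i j =>
    intro w v w' v' h
    simp only [Fml.Holds]
    rw [le_antisymm_iff, le_antisymm_iff, ty_le h i j, ty_le h j i]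
  | le i j =>
    intro w v w' v' h
    exact ty_le h i j
  | pred i =>
    intro w v w' v' h
    simp only [Fml.Holds]
    rw [ty_val h i]
  | neg φ ih => exact dfn_not ih
  | and φ ψ ih1 ih2 => exact dfn_and hn ih1 ih2
  | or φ ψ ih1 ih2 =>
    have h := dfn_not (dfn_and hn (dfn_not ih1) (dfn_not ih2))
    have e : (fun (w : Fin n → Bool) v => (Fml.or φ ψ).Holds w v) =
        fun w v => ¬ (¬ φ.Holds w v ∧ ¬ ψ.Holds w v) := by
      funext w v
      simp only [Fml.Holds, eq_iff_iff]
      tauto
    rw [e]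
    exact h
  | imp φ ψ ih1 ih2 =>
    have h := dfn_not (dfn_and hn ih1 (dfn_not ih2))
    have e : (fun (w : Fin n → Bool) v => (Fml.imp φ ψ).Holds w v) =
        fun w v => ¬ (φ.Holds w v ∧ ¬ ψ.Holds w v) := by
      funext w v
      simp only [Fml.Holds, eq_iff_iff]
      tauto
    rw [e]
    exact h
  | ex φ ih => exact ⟨_, ih, Or.inl rfl⟩
  | all φ ih => exact ⟨_, ih, Or.inr rfl⟩

/-! ### Counting -/

theorem card_dfn_zero (m : ℕ) : (Dfn n 0 m).ncard ≤ 2 ^ ((2 * m) ^ m) := by
  classical
  let F : Rl n m → Set (Fin m → Fin m × Bool) := fun R => {t | ∃ w v, ty w v = t ∧ R w v}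
  have hinj : Set.InjOn F (Dfn n 0 m) := by
    intro R hR S hS h
    funext w v
    apply propext
    constructor
    · intro hw
      have : ty w v ∈ F R := ⟨w, v, rfl, hw⟩
      rw [h] at this
      obtain ⟨w', v', h1, h2⟩ := this
      exact (hS w' v' w v h1).1 h2
    · intro hw
      have : ty w v ∈ F S := ⟨w, v, rfl, hw⟩
      rw [← h] at this
      obtain ⟨w', v', h1, h2⟩ := this
      exact (hR w' v' w v h1).1 h2
  have h1 : (Dfn n 0 m).ncard = (F '' Dfn n 0 m).ncard := hinj.ncard_image.symm
  rw [h1]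
  refine (Set.ncard_le_ncard (Set.subset_univ _) Set.finite_univ).trans ?_
  rw [Set.ncard_univ, Nat.card_eq_fintype_card]
  simp [Fintype.card_set, mul_comm]

theorem dfn_finite (k m : ℕ) : (Dfn n k m).Finite := Set.toFinite _

theorem card_dfn (k m : ℕ) : (Dfn n k m).ncard ≤ 2 ^ k * 2 ^ ((2 * (m + k)) ^ (m + k)) := by
  induction k generalizing m with
  | zero => simpa using card_dfn_zero (n := n) m
  | succ k ih =>
    have h : Dfn n (k + 1) m ⊆
        ((fun R' : Rl n (m + 1) => (fun w v => ∃ a, R' w (Fin.snoc (α := fun _ => Fin n) v a) :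
            Rl n m)) '' Dfn n k (m + 1)) ∪
        ((fun R' : Rl n (m + 1) => (fun w v => ∀ a, R' w (Fin.snoc (α := fun _ => Fin n) v a) :
            Rl n m)) '' Dfn n k (m + 1)) := by
      rintro R ⟨R', hR', h | h⟩
      · exact Or.inl ⟨R', hR', h.symm⟩
      · exact Or.inr ⟨R', hR', h.symm⟩
    calc (Dfn n (k + 1) m).ncard ≤ _ := Set.ncard_le_ncard h (Set.toFinite _)
      _ ≤ _ := Set.ncard_union_le _ _
      _ ≤ (Dfn n k (m + 1)).ncard + (Dfn n k (m + 1)).ncard :=
          Nat.add_le_add (Set.ncard_image_le (Set.toFinite _)) (Set.ncard_image_le (Set.toFinite _))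
      _ ≤ 2 ^ k * 2 ^ ((2 * (m + 1 + k)) ^ (m + 1 + k)) +
          2 ^ k * 2 ^ ((2 * (m + 1 + k)) ^ (m + 1 + k)) := Nat.add_le_add (ih _) (ih _)
      _ = 2 ^ (k + 1) * 2 ^ ((2 * (m + (k + 1))) ^ (m + (k + 1))) := by
          rw [show m + 1 + k = m + (k + 1) by ring]
          ring

theorem count {k : ℕ} (hn : 0 < n) (h : Enough n k) : 2 ^ n ≤ k + (2 * k) ^ k := by
  classical
  let F : Set (Fin n → Bool) → Rl n 0 := fun A w _ => w ∈ A
  have hinj : Function.Injective F := by
    intro A B hAB
    ext w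
    exact iff_of_eq (congrFun (congrFun hAB w) Fin.elim0)
  have hmem : ∀ A, F A ∈ Dfn n k 0 := by
    intro A
    obtain ⟨φ, h1, h2, h3⟩ := h A Aᶜ disjoint_compl_right
    have h4 := dfn_mono hn h1 (holds_mem hn φ)
    have e : F A = fun w v => φ.Holds w v := by
      funext w v
      have hv : v = Fin.elim0 := Subsingleton.elim _ _
      rw [hv]
      apply propext
      constructor
      · intro hw
        exact h2 w hw
      · intro hw
        by_contra hA
        exact h3 w hA hw
    rw [e]
    exact h4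
  have h1 : (Set.range F).ncard ≤ (Dfn n k 0).ncard := by
    apply Set.ncard_le_ncard _ (Set.toFinite _)
    rintro _ ⟨A, rfl⟩
    exact hmem A
  have h2 : (Set.range F).ncard = 2 ^ (2 ^ n) := by
    rw [← Set.image_univ, Set.ncard_image_of_injective _ hinj, Set.ncard_univ,
      Nat.card_eq_fintype_card]
    simp [Fintype.card_set]
  have h3 := (h2 ▸ h1).trans (card_dfn (n := n) k 0)
  rw [← pow_add] at h3
  have h4 := (Nat.pow_le_pow_iff_right (by norm_num)).1 h3
  simpa using h4

end Sem

/-! ### `n` quantifiers are enough -/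

/-- A true formula. -/
def tt {m : ℕ} : Fml (m + 1) := .eq 0 0

/-- Finite conjunctions. -/
def conj {m : ℕ} (l : List (Fml (m + 1))) : Fml (m + 1) := l.foldr .and tt

/-- Finite disjunctions. -/
def disj {m : ℕ} (l : List (Fml (m + 1))) : Fml (m + 1) := l.foldr .or (.neg tt)

theorem holds_conj {n m : ℕ} (w : Fin n → Bool) (l : List (Fml (m + 1))) (v : Fin (m + 1) → Fin n) :
    (conj l).Holds w v ↔ ∀ φ ∈ l, φ.Holds w v := by
  induction l with
  | nil => simp [conj, tt, Fml.Holds]
  | cons φ l ih =>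
    simp only [conj, List.foldr_cons, Fml.Holds, List.mem_cons, forall_eq_or_imp] at ih ⊢
    rw [ih]

theorem holds_disj {n m : ℕ} (w : Fin n → Bool) (l : List (Fml (m + 1))) (v : Fin (m + 1) → Fin n) :
    (disj l).Holds w v ↔ ∃ φ ∈ l, φ.Holds w v := by
  induction l with
  | nil => simp [disj, tt, Fml.Holds]
  | cons φ l ih =>
    simp only [disj, List.foldr_cons, Fml.Holds, List.mem_cons, exists_eq_or_imp] at ih ⊢
    rw [ih]

theorem qn_conj {m : ℕ} (l : List (Fml (m + 1))) (h : ∀ φ ∈ l, φ.qn = 0) : (conj l).qn = 0 := by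
  induction l with
  | nil => rfl
  | cons φ l ih =>
    simp only [conj, List.foldr_cons, Fml.qn] at ih ⊢
    rw [h φ (by simp), ih fun ψ hψ => h ψ (by simp [hψ])]

theorem qn_disj {m : ℕ} (l : List (Fml (m + 1))) (h : ∀ φ ∈ l, φ.qn = 0) : (disj l).qn = 0 := by
  induction l with
  | nil => rfl
  | cons φ l ih =>
    simp only [disj, List.foldr_cons, Fml.qn] at ih ⊢
    rw [h φ (by simp), ih fun ψ hψ => h ψ (by simp [hψ])]

/-- Existential closure. -/
def exs : (k : ℕ) → Fml k → Fml 0
  | 0, φ => φ
  | k + 1, φ => exs k (.ex φ)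

theorem holds_exs {n : ℕ} (w : Fin n → Bool) (k : ℕ) (φ : Fml k) :
    (exs k φ).Holds w Fin.elim0 ↔ ∃ v : Fin k → Fin n, φ.Holds w v := by
  induction k with
  | zero =>
    constructor
    · intro h
      exact ⟨_, h⟩
    · rintro ⟨v, h⟩
      have hv : v = Fin.elim0 := Subsingleton.elim _ _
      rwa [hv] at h
  | succ k ih =>
    rw [exs, ih]
    constructor
    · rintro ⟨v, a, h⟩
      exact ⟨_, h⟩
    · rintro ⟨v, h⟩
      refine ⟨Fin.init v, v (Fin.last k), ?_⟩
      rwa [Fin.snoc_init_self]

theorem qn_exs (k : ℕ) (φ : Fml k) : (exs k φ).qn = φ.qn + k := by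
  induction k with
  | zero => rfl
  | succ k ih =>
    rw [exs, ih, Fml.qn]
    ring

/-- `P x_i` or its negation. -/
def lit {m : ℕ} (w : Fin m → Bool) (i : Fin m) : Fml m := if w i = true then .pred i else .neg (.pred i)

theorem holds_lit {n m : ℕ} (u : Fin n → Bool) (w : Fin m → Bool) (i : Fin m) (v : Fin m → Fin n) :
    (lit w i).Holds u v ↔ u (v i) = w i := by
  unfold lit
  cases h : w i <;> simp [Fml.Holds]

theorem qn_lit {m : ℕ} (w : Fin m → Bool) (i : Fin m) : (lit w i).qn = 0 := by
  unfold lit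
  split_ifs <;> rfl

/-- `x_0 < ... < x_m`, and the string is one of the strings in `A`. -/
noncomputable def matrix {m : ℕ} (A : Set (Fin (m + 1) → Bool)) : Fml (m + 1) :=
  .and (conj (((Finset.univ : Finset (Fin (m + 1) × Fin (m + 1))).filter fun p => p.1 < p.2).toList.map
    fun p => .neg (.le p.2 p.1)))
  (disj ((Set.toFinite A).toFinset.toList.map fun w => conj (Finset.univ.toList.map (lit w))))

theorem enough_self (m : ℕ) : Enough (m + 1) (m + 1) := by
  classical
  intro A B hAB
  refine ⟨exs (m + 1) (matrix A), ?_, ?_⟩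
  · rw [qn_exs]
    have h : (matrix A).qn = 0 := by
      rw [matrix, Fml.qn, qn_conj, qn_disj]
      · intro φ hφ
        simp only [List.mem_map] at hφ
        obtain ⟨w, -, rfl⟩ := hφ
        apply qn_conj
        intro φ hφ
        simp only [List.mem_map] at hφ
        obtain ⟨i, -, rfl⟩ := hφ
        exact qn_lit w i
      · intro φ hφ
        simp only [List.mem_map] at hφ
        obtain ⟨p, -, rfl⟩ := hφ
        rfl
    omega
  · have key : ∀ w : Fin (m + 1) → Bool, True' (exs (m + 1) (matrix A)) w ↔ w ∈ A := by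
      intro w
      unfold True'
      rw [holds_exs]
      have h1 : ∀ v : Fin (m + 1) → Fin (m + 1), (matrix A).Holds w v ↔
          StrictMono v ∧ ∃ u ∈ A, ∀ i, w (v i) = u i := by
        intro v
        rw [matrix, Fml.Holds, holds_conj, holds_disj]
        apply and_congr
        · simp only [List.mem_map, Finset.mem_toList, Finset.mem_filter, Finset.mem_univ, true_and,
            forall_exists_index, and_imp]
          constructor
          · intro h i j hij
            have := h _ (i, j) hij rfl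
            simpa [Fml.Holds] using this
          · rintro h φ ⟨i, j⟩ hij rfl
            simpa [Fml.Holds] using h hij
        · constructor
          · rintro ⟨φ, hφ, h⟩
            simp only [List.mem_map, Finset.mem_toList, Set.Finite.mem_toFinset] at hφ
            obtain ⟨u, hu, rfl⟩ := hφ
            rw [holds_conj] at h
            refine ⟨u, hu, fun i => ?_⟩
            have := h (lit u i) (by simp)
            rwa [holds_lit] at this
          · rintro ⟨u, hu, h⟩
            refine ⟨conj (Finset.univ.toList.map (lit u)), ?_, ?_⟩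
            · simp only [List.mem_map, Finset.mem_toList, Set.Finite.mem_toFinset]
              exact ⟨u, hu, rfl⟩
            · rw [holds_conj]
              intro φ hφ
              simp only [List.mem_map, Finset.mem_toList, Finset.mem_univ, true_and] at hφ
              obtain ⟨i, rfl⟩ := hφ
              rw [holds_lit]
              exact h i
      simp only [h1]
      constructor
      · rintro ⟨v, hv, u, hu, h⟩
        have hid : ∀ i, v i = i := by
          have hb : Function.Bijective v := Finite.injective_iff_bijective.1 hv.injective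
          let e : Fin (m + 1) ≃o Fin (m + 1) := hv.orderIsoOfSurjective _ hb.2
          have he : e = OrderIso.refl _ := Subsingleton.elim _ _
          intro i
          have := congrArg (fun f : Fin (m + 1) ≃o Fin (m + 1) => f i) he
          simpa [e] using this
        have : w = u := by
          funext i
          rw [← h i, hid i]
        rwa [this]
      · intro hw
        exact ⟨id, strictMono_id, w, hw, fun i => rfl⟩
    refine ⟨fun w hw => (key w).2 hw, fun w hw h => ?_⟩
    exact Set.disjoint_left.1 hAB ((key w).1 h) hw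

theorem enough_q {n : ℕ} (hn : 0 < n) : Enough n (q n) := by
  obtain ⟨m, rfl⟩ : ∃ m, n = m + 1 := ⟨n - 1, by omega⟩
  exact Nat.sInf_mem (s := {k | Enough (m + 1) k}) ⟨m + 1, enough_self m⟩

/-! ### The asymptotic bound -/

theorem real_bound {n k : ℕ} (hn : 0 < n) (h : 2 ^ n ≤ k + (2 * k) ^ k) :
    1 ≤ k ∧ (n : ℝ) ≤ k * (2 + Real.logb 2 k) := by
  have hk : 1 ≤ k := by
    by_contra hk
    have hk0 : k = 0 := by omega
    subst hk0
    have : 2 ^ 1 ≤ 2 ^ n := Nat.pow_le_pow_right (by norm_num) hn
    simp at h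
    omega
  refine ⟨hk, ?_⟩
  have h1 : k ≤ (2 * k) ^ k := by
    calc k ≤ 2 * k := by omega
      _ = (2 * k) ^ 1 := (pow_one _).symm
      _ ≤ (2 * k) ^ k := Nat.pow_le_pow_right (by omega) hk
  have h2 : 2 ^ n ≤ (4 * k) ^ k := by
    calc 2 ^ n ≤ k + (2 * k) ^ k := h
      _ ≤ 2 ^ 1 * (2 * k) ^ k := by omega
      _ ≤ 2 ^ k * (2 * k) ^ k := Nat.mul_le_mul_right _ (Nat.pow_le_pow_right (by norm_num) hk)
      _ = (4 * k) ^ k := by rw [← mul_pow]; ring
  have h3 : (2 : ℝ) ^ n ≤ (4 * (k : ℝ)) ^ k := by exact_mod_cast h2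
  have hk' : (0 : ℝ) < k := by exact_mod_cast hk
  have h4 := Real.logb_le_logb_of_le (b := 2) (by norm_num) (by positivity) h3
  rw [Real.logb_pow, Real.logb_pow, Real.logb_self_eq_one (by norm_num), mul_one,
    Real.logb_mul (by norm_num) hk'.ne'] at h4
  have h5 : Real.logb 2 4 = 2 := by
    rw [show (4 : ℝ) = 2 ^ 2 by norm_num, Real.logb_pow, Real.logb_self_eq_one (by norm_num)]
    norm_num
  rwa [h5] at h4

theorem lower {n k : ℕ} {ε : ℝ} (hε : 0 < ε) (hε1 : ε ≤ 1) (hn : 0 < n)
    (h : 2 ^ n ≤ k + (2 * k) ^ k)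
    (hL : 0 < Real.logb 2 n) (h1 : Real.logb 2 (Real.logb 2 n) ≤ Real.logb 2 n)
    (h2 : 6 / ε < Real.logb 2 (Real.logb 2 n)) :
    (n : ℝ) / Real.logb 2 n +
      (1 - ε) * n * Real.logb 2 (Real.logb 2 n) / (Real.logb 2 n) ^ 2 ≤ k := by
  obtain ⟨hk, hb⟩ := real_bound hn h
  by_contra hcon
  push Not at hcon
  set L := Real.logb 2 n with hLdef
  set M := Real.logb 2 L with hMdef
  have hn' : (0 : ℝ) < n := by exact_mod_cast hn
  have hk' : (1 : ℝ) ≤ k := by exact_mod_cast hk
  have hM : 0 < M := lt_trans (by positivity) h2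
  set x := M / L with hx
  have hx0 : 0 < x := div_pos hM hL
  have hx1 : x ≤ 1 := (div_le_one hL).2 h1
  set f := (n : ℝ) / L * (1 + (1 - ε) * x) with hf
  have hfe : (n : ℝ) / L + (1 - ε) * n * M / L ^ 2 = f := by
    rw [hf, hx]
    field_simp
  rw [hfe] at hcon
  have hfk : (k : ℝ) ≤ f := hcon.le
  have hf1 : 1 ≤ f := hk'.trans hfk
  have hf2 : f ≤ 2 * n / L := by
    have : 1 + (1 - ε) * x ≤ 2 := by nlinarith
    calc f ≤ (n : ℝ) / L * 2 := mul_le_mul_of_nonneg_left this (by positivity)
      _ = 2 * n / L := by ring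
  have hlog : Real.logb 2 f ≤ 1 + L - M := by
    calc Real.logb 2 f ≤ Real.logb 2 (2 * n / L) :=
          Real.logb_le_logb_of_le (by norm_num) (by linarith) hf2
      _ = 1 + L - M := by
          rw [Real.logb_div (by positivity) hL.ne', Real.logb_mul (by norm_num) hn'.ne',
            Real.logb_self_eq_one (by norm_num)]
  have hlk : Real.logb 2 k ≤ Real.logb 2 f :=
    Real.logb_le_logb_of_le (by norm_num) (by linarith) hfk
  have hlk0 : 0 ≤ Real.logb 2 k := Real.logb_nonneg (by norm_num) hk'
  have h3 : (n : ℝ) ≤ f * (3 + L - M) := by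
    calc (n : ℝ) ≤ k * (2 + Real.logb 2 k) := hb
      _ ≤ f * (2 + Real.logb 2 k) := mul_le_mul_of_nonneg_right hfk (by linarith)
      _ ≤ f * (3 + L - M) := mul_le_mul_of_nonneg_left (by linarith) (by linarith)
  have h4 : f * (3 + L - M) = n * ((1 + (1 - ε) * x) * (3 / L + 1 - x)) := by
    rw [hf, hx]
    field_simp
  rw [h4] at h3
  have h5 : 1 ≤ (1 + (1 - ε) * x) * (3 / L + 1 - x) := by
    have : (n : ℝ) * 1 ≤ n * ((1 + (1 - ε) * x) * (3 / L + 1 - x)) := by simpa using h3
    exact le_of_mul_le_mul_left this hn'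
  have h6 : ε * x > 6 / L := by
    rw [hx, gt_iff_lt, div_lt_iff₀ hL]
    have : ε * (M / L) * L = ε * M := by field_simp
    rw [this]
    rw [div_lt_iff₀ hε] at h2
    linarith
  have h7 : 0 < 3 / L := by positivity
  have h8 : 6 / L = 2 * (3 / L) := by ring
  rw [h8] at h6
  have h9 : (1 - ε) * x * (3 / L) ≤ 3 / L := by
    have : (1 - ε) * x ≤ 1 := by nlinarith
    nlinarith
  nlinarith [mul_nonneg (mul_nonneg (sub_nonneg.2 hε1) hx0.le) hx0.le]

theorem eventually_lower (ε : ℝ) (hε : 0 < ε) : ∀ᶠ n : ℕ in atTop,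
    (n : ℝ) / Real.logb 2 n +
      (1 - ε) * n * Real.logb 2 (Real.logb 2 n) / (Real.logb 2 n) ^ 2 ≤ q n := by
  have hL : Tendsto (fun n : ℕ => Real.logb 2 (n : ℝ)) atTop atTop :=
    (Real.tendsto_logb_atTop (by norm_num)).comp tendsto_natCast_atTop_atTop
  have hM : Tendsto (fun n : ℕ => Real.logb 2 (Real.logb 2 (n : ℝ))) atTop atTop :=
    (Real.tendsto_logb_atTop (by norm_num)).comp hL
  have hlog : ∀ᶠ x : ℝ in atTop, Real.logb 2 x ≤ x := by
    have h2 : (0 : ℝ) < Real.log 2 := Real.log_pos (by norm_num)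
    filter_upwards [Real.isLittleO_log_id_atTop.def h2, eventually_gt_atTop 0] with x hx hx0
    rw [Real.logb, div_le_iff₀ h2]
    simp only [id, Real.norm_eq_abs] at hx
    rw [abs_of_pos hx0] at hx
    calc Real.log x ≤ |Real.log x| := le_abs_self _
      _ ≤ Real.log 2 * x := hx
      _ = x * Real.log 2 := mul_comm _ _
  set δ := min ε 1 with hδ
  have hδ0 : 0 < δ := lt_min hε one_pos
  filter_upwards [hL.eventually_gt_atTop 0, hL.eventually hlog, hM.eventually_gt_atTop (6 / δ),
    eventually_gt_atTop 0] with n h1 h2 h3 h4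
  have h5 := lower hδ0 (min_le_right _ _) h4 (count h4 (enough_q h4)) h1 h2 h3
  refine le_trans ?_ h5
  have hM0 : 0 < Real.logb 2 (Real.logb 2 (n : ℝ)) := lt_trans (by positivity) h3
  have : (1 - ε) * (n : ℝ) * Real.logb 2 (Real.logb 2 n) / (Real.logb 2 n) ^ 2 ≤
      (1 - δ) * n * Real.logb 2 (Real.logb 2 n) / (Real.logb 2 n) ^ 2 := by
    apply div_le_div_of_nonneg_right _ (by positivity)
    apply mul_le_mul_of_nonneg_right _ hM0.le
    apply mul_le_mul_of_nonneg_right _ (by positivity)
    linarith [min_le_left ε 1]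
  linarith

theorem tendsto_diff : Tendsto (fun n : ℕ => (q n : ℝ) - n / Real.logb 2 n) atTop atTop := by
  have hL : Tendsto (fun n : ℕ => Real.logb 2 (n : ℝ)) atTop atTop :=
    (Real.tendsto_logb_atTop (by norm_num)).comp tendsto_natCast_atTop_atTop
  have hM : Tendsto (fun n : ℕ => Real.logb 2 (Real.logb 2 (n : ℝ))) atTop atTop :=
    (Real.tendsto_logb_atTop (by norm_num)).comp hL
  -- `n / (log n) ^ 2` is bounded below
  have hsq : ∀ᶠ n : ℕ in atTop, (Real.logb 2 (n : ℝ)) ^ 2 ≤ n := by
    have h2 : (0 : ℝ) < Real.log 2 := Real.log_pos (by norm_num)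
    have h := (isLittleO_log_rpow_atTop (r := 1 / 2) (by norm_num)).def h2
    have h' : ∀ᶠ x : ℝ in atTop, (Real.logb 2 x) ^ 2 ≤ x := by
      filter_upwards [h, eventually_gt_atTop 0] with x hx hx0
      have hpos : 0 ≤ x ^ (1 / 2 : ℝ) := by positivity
      rw [Real.norm_eq_abs, Real.norm_eq_abs, abs_of_nonneg hpos] at hx
      have h3 : |Real.logb 2 x| ≤ x ^ (1 / 2 : ℝ) := by
        rw [Real.logb, abs_div, abs_of_pos h2, div_le_iff₀ h2]
        linarith
      calc (Real.logb 2 x) ^ 2 = |Real.logb 2 x| ^ 2 := (sq_abs _).symm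
        _ ≤ (x ^ (1 / 2 : ℝ)) ^ 2 := pow_le_pow_left₀ (abs_nonneg _) h3 2
        _ = x := by
          rw [← Real.rpow_natCast, ← Real.rpow_mul hx0.le]
          norm_num
    exact tendsto_natCast_atTop_atTop.eventually h'
  refine tendsto_atTop.2 fun C => ?_
  filter_upwards [eventually_lower (1 / 2) (by norm_num), hsq, hL.eventually_gt_atTop 0,
    hM.eventually_ge_atTop (2 * |C|)] with n h1 h2 h3 h4
  have h5 : (0 : ℝ) < (Real.logb 2 (n : ℝ)) ^ 2 := by positivity
  have h6 : |C| ≤ (1 - 1 / 2) * n * Real.logb 2 (Real.logb 2 n) / (Real.logb 2 n) ^ 2 := by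
    rw [le_div_iff₀ h5]
    have h7 : 0 ≤ |C| := abs_nonneg C
    nlinarith
  linarith [le_abs_self C]

/-- The factor `1 + ε` in the bound `q n ≤ (1 + ε) n / log n + O(1)` cannot be removed:
`q n ≤ n / log n + C` does not hold for all `n ≥ 2`, for any constant `C`; moreover
`q n - n / log n` tends to infinity, and it is at least `(1 - ε) n log log n / (log n) ^ 2` for all
large `n`, for every `ε > 0`. Logarithms are to base 2. -/
theorem result :
    (¬ ∃ C : ℝ, ∀ n : ℕ, 2 ≤ n → (q n : ℝ) ≤ n / Real.logb 2 n + C) ∧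
    Tendsto (fun n : ℕ => (q n : ℝ) - n / Real.logb 2 n) atTop atTop ∧
    ∀ ε : ℝ, 0 < ε → ∀ᶠ n : ℕ in atTop,
      (n : ℝ) / Real.logb 2 n +
        (1 - ε) * n * Real.logb 2 (Real.logb 2 n) / (Real.logb 2 n) ^ 2 ≤ q n := by
  refine ⟨?_, tendsto_diff, eventually_lower⟩
  rintro ⟨C, hC⟩
  obtain ⟨n, h1, h2⟩ := ((tendsto_diff.eventually_gt_atTop C).and (eventually_ge_atTop 2)).exists
  linarith [hC n h2]

end Pool.Agent.Results.MP_ce8f12_lc.FactorNeeded
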